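import Pool.Agent.RST062.Prob

/-!
# MP_062a2b_pr: near linear exploration of random temporal graphs of bounded snapshot degree

`Explores g s t`: in the temporal graph with snapshots `g 0, g 1, …` there is a temporal walk of
length `t` from `s` which visits all vertices (`g i` is the snapshot `G_{i+1}`).
-/

set_option autoImplicit false

open MeasureTheory ProbabilityTheory

namespace Pool.Agent.Results.MP_062a2b_pr.NearLinear

/-- a temporal walk `v 0, …, v t` from `s` (waiting allowed) which visits all vertices -/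
def Explores {V : Type*} (g : ℕ → SimpleGraph V) (s : V) (t : ℕ) : Prop :=
  ∃ v : ℕ → V, v 0 = s ∧ (∀ i < t, v (i + 1) = v i ∨ (g i).Adj (v i) (v (i + 1))) ∧
    ∀ x, ∃ i ≤ t, v i = x

/-- **Theorem.**  Let the snapshots be independent with a common law `μ` on connected graphs with
vertex set `Fin n` and maximum degree at most `d` (in particular, any random spanning tree model
with trees of maximum degree at most `d`).  Then with probability at least `1 - 1 / n` there is an
exploration from `s` of length at most `40 d n (log n) ^ 2`. -/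
theorem result (n : ℕ) (hn : 2 ≤ n) (d : ℕ) (μ : PMF (SimpleGraph (Fin n)))
    (hμ : ∀ H ∈ μ.support, H.Connected ∧ ∀ v, (H.neighborSet v).ncard ≤ d)
    {Ω : Type*} [MeasurableSpace Ω] (P : Measure Ω) [IsProbabilityMeasure P]
    (G : ℕ → Ω → SimpleGraph (Fin n)) (hm : ∀ i, Measurable (G i))
    (hlaw : ∀ i H, P {ω | G i ω = H} = μ H) (hind : iIndepFun G P) (s : Fin n) :
    1 - 1 / (n : ℝ) ≤ P.real {ω | ∃ t : ℕ, (t : ℝ) ≤ 40 * d * n * Real.log n ^ 2 ∧
      Explores (fun i => G i ω) s t} := by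
  classical
  set p : SimpleGraph (Fin n) → ℝ := fun H => (μ H).toReal with hp
  have hG : ∀ i H, P.real {ω | G i ω = H} = p H := fun i H => by
    rw [Measure.real, hlaw i H]
  have hsupp : ∀ H, p H ≠ 0 → H ∈ μ.support := by
    intro H hH
    rw [PMF.mem_support_iff]
    intro h
    exact hH (by simp [hp, h])
  have hlawp : RST062.Law p d := by
    refine ⟨fun H => ENNReal.toReal_nonneg, ?_, fun H hH => (hμ H (hsupp H hH)).1,
      fun H hH => (hμ H (hsupp H hH)).2⟩
    have h1 : ∑ H, μ H = 1 := (tsum_fintype fun H => μ H).symm.trans μ.tsum_coe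
    have h2 := congrArg ENNReal.toReal h1
    rw [ENNReal.toReal_sum (fun H _ => μ.apply_ne_top H), ENNReal.toReal_one] at h2
    exact h2
  have hcard : Fintype.card (Fin n) = n := Fintype.card_fin n
  have hd : 0 < d := RST062.card_pos_d hlawp (by rw [hcard]; exact hn)
  have hd1 : (1 : ℝ) ≤ d := by exact_mod_cast hd
  have hn2 : (2 : ℝ) ≤ n := by exact_mod_cast hn
  have hn0 : (0 : ℝ) < n := by linarith
  set l : ℝ := Real.log n with hl
  have hl2 : (0.6931471803 : ℝ) < Real.log 2 := Real.log_two_gt_d9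
  have hll : Real.log 2 ≤ l := Real.log_le_log (by norm_num) hn2
  have hl0 : 0 < l := by linarith
  obtain ⟨e, N, hN, hbad⟩ := RST062.explore hm hind hG hlawp (by rw [hcard]; exact hn)
    (L := 3 * l) (by positivity) s
  rw [hcard] at hN hbad
  -- the length
  have hN' : (N : ℝ) ≤ 40 * d * n * l ^ 2 := by
    refine hN.trans ?_
    have hU : RST062.U n = n * (l / Real.log 2) := by
      unfold RST062.U
      rw [Real.logb]
    rw [hU]
    have h1 : l / Real.log 2 ≤ (35 / 24) * l := by
      rw [div_le_iff₀ (by linarith)]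
      nlinarith
    have h2 : 4 * (d : ℝ) * (3 * l) * (2 * (n * (l / Real.log 2))) ≤
        4 * (d : ℝ) * (3 * l) * (2 * (n * ((35 / 24) * l))) := by
      gcongr
    have h3 : (2 : ℝ) ≤ 5 * l ^ 2 := by nlinarith
    have h4 : (n : ℝ) * 2 ≤ n * (5 * l ^ 2) := mul_le_mul_of_nonneg_left h3 hn0.le
    have h5 : (n : ℝ) * (5 * l ^ 2) ≤ d * (n * (5 * l ^ 2)) := by
      have : 0 ≤ (n : ℝ) * (5 * l ^ 2) := by positivity
      nlinarith
    nlinarith
  -- the probability
  have hfail : P.real {ω | ¬ RST062.Vis (fun i => G i ω) 0 N s e Finset.univ} ≤ 1 / n := by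
    refine hbad.trans ?_
    have h1 : Real.exp (-(3 * l)) = 1 / (n : ℝ) ^ 3 := by
      have h2 : 3 * l = l + l + l := by ring
      rw [Real.exp_neg, h2, Real.exp_add, Real.exp_add, hl, Real.exp_log hn0, one_div]
      congr 1
      ring
    rw [h1]
    have h2 : ((n : ℝ) - 1) * (n * (1 / (n : ℝ) ^ 3)) = (n - 1) / n * (1 / n) := by
      field_simp
    rw [h2]
    have h3 : ((n : ℝ) - 1) / n ≤ 1 := by
      rw [div_le_one hn0]
      linarith
    have h4 : 0 ≤ 1 / (n : ℝ) := by positivity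
    nlinarith
  have hsub : {ω | ∃ t : ℕ, (t : ℝ) ≤ 40 * d * n * l ^ 2 ∧ Explores (fun i => G i ω) s t}ᶜ ⊆
      {ω | ¬ RST062.Vis (fun i => G i ω) 0 N s e Finset.univ} := by
    intro ω hω hv
    refine hω ⟨N, hN', ?_⟩
    obtain ⟨v, h1, h2, h3, h4⟩ := hv
    refine ⟨v, h1, fun i hi => h3 i (Nat.zero_le i) hi, fun x => ?_⟩
    obtain ⟨i, -, hi, hx⟩ := h4 x (Finset.mem_univ x)
    exact ⟨i, hi, hx⟩
  have h1 : (1 : ℝ) ≤ P.real {ω | ∃ t : ℕ, (t : ℝ) ≤ 40 * d * n * l ^ 2 ∧
      Explores (fun i => G i ω) s t} + P.real {ω | ∃ t : ℕ, (t : ℝ) ≤ 40 * d * n * l ^ 2 ∧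
      Explores (fun i => G i ω) s t}ᶜ := by
    have h2 := measureReal_union_le (μ := P) {ω | ∃ t : ℕ, (t : ℝ) ≤ 40 * d * n * l ^ 2 ∧
      Explores (fun i => G i ω) s t} {ω | ∃ t : ℕ, (t : ℝ) ≤ 40 * d * n * l ^ 2 ∧
      Explores (fun i => G i ω) s t}ᶜ
    rw [Set.union_compl_self, probReal_univ] at h2
    exact h2
  have h2 := (measureReal_mono hsub).trans hfail
  linarith

end Pool.Agent.Results.MP_062a2b_pr.NearLinear
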