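import Pool.Agent.RST42.Final

/-! Exploration of random spanning tree temporal graphs in which no edge is likely: time of order
`√d * n` with probability at least `1 - exp (-√n)`. -/

namespace Pool.Agent.Results.MP_062a2b_pr.SpreadEdges

open MeasureTheory ProbabilityTheory

/-- every set of graphs on the vertex set `Fin n` is measurable -/
instance (n : ℕ) : MeasurableSpace (SimpleGraph (Fin n)) := ⊤

/-- A random spanning tree model on `n` vertices: a set of trees and a law on it. -/
structure RSTModel (n : ℕ) where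
  /-- the set of trees -/
  trees : Set (SimpleGraph (Fin n))
  isTree : ∀ T ∈ trees, T.IsTree
  /-- the law of one snapshot -/
  law : PMF (SimpleGraph (Fin n))
  supported : law.support ⊆ trees

/-- all trees of the model have maximum degree at most `d` -/
def RSTModel.MaxDegLE {n : ℕ} (M : RSTModel n) (d : ℕ) : Prop :=
  ∀ T ∈ M.trees, ∀ v : Fin n, (T.neighborSet v).ncard ≤ d

/-- the probability that `uv` is an edge of a snapshot -/
noncomputable def RSTModel.edgeProb {n : ℕ} (M : RSTModel n) (u v : Fin n) : ℝ :=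
  (M.law.toMeasure {T | T.Adj u v}).toReal

/-- `G 0, G 1, ...` are independent random graphs, each with the law of the model
(`G i` is the snapshot number `i + 1`) -/
structure IsSample {n : ℕ} (M : RSTModel n) {Ω : Type*} [MeasurableSpace Ω] (P : Measure Ω)
    (G : ℕ → Ω → SimpleGraph (Fin n)) : Prop where
  measurable : ∀ i, Measurable (G i)
  indep : iIndepFun G P
  law_eq : ∀ i, P.map (G i) = M.law.toMeasure

/-- the vertices `v 0, ..., v t` are an exploration from `s` of length `t`: a temporal walk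
along the snapshots `H 0, ..., H (t - 1)` which starts at `s` and visits every vertex -/
def IsExploration {n : ℕ} (H : ℕ → SimpleGraph (Fin n)) (s : Fin n) (t : ℕ) (v : ℕ → Fin n) :
    Prop :=
  v 0 = s ∧ (∀ i < t, v (i + 1) = v i ∨ (H i).Adj (v i) (v (i + 1))) ∧ ∀ y, ∃ i ≤ t, v i = y

/-- the exploration time from `s` (infinite if there is no exploration) -/
noncomputable def texp {n : ℕ} (H : ℕ → SimpleGraph (Fin n)) (s : Fin n) : ℕ∞ :=
  ⨅ (t : ℕ) (_ : ∃ v, IsExploration H s t v), (t : ℕ∞)

theorem cylinder {n : ℕ} {M : RSTModel n} {Ω : Type*} [MeasurableSpace Ω] {P : Measure Ω}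
    {G : ℕ → Ω → SimpleGraph (Fin n)} (hG : IsSample M P G) (N : ℕ)
    (T : Fin N → SimpleGraph (Fin n)) :
    P {ω | ∀ i : Fin N, G i ω = T i} = ∏ i, M.law (T i) := by
  classical
  set T' : ℕ → SimpleGraph (Fin n) := fun i => if h : i < N then T ⟨i, h⟩ else ⊥ with hT'
  have e1 : {ω | ∀ i : Fin N, G i ω = T i} = ⋂ i ∈ Finset.range N, G i ⁻¹' {T' i} := by
    ext ω
    rw [Set.mem_iInter₂]
    constructor
    · intro h i hi
      have hi' : i < N := Finset.mem_range.1 hi
      have e : T' i = T ⟨i, hi'⟩ := by rw [hT']; simp only [hi', dif_pos]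
      change G i ω = T' i
      rw [e]
      exact h ⟨i, hi'⟩
    · intro h i
      have h1 : G i ω = T' i := h i.1 (Finset.mem_range.2 i.2)
      have e : T' i.1 = T i := by rw [hT']; simp only [i.2, dif_pos]
      rw [h1, e]
  rw [e1, hG.indep.measure_inter_preimage_eq_mul (Finset.range N)
    (fun i _ => MeasurableSpace.measurableSet_top), Finset.prod_range]
  refine Finset.prod_congr rfl fun i _ => ?_
  have e : T' i.1 = T i := by rw [hT']; simp only [i.2, dif_pos]
  rw [← Measure.map_apply (hG.measurable i) MeasurableSpace.measurableSet_top, hG.law_eq,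
    PMF.toMeasure_apply_singleton _ _ MeasurableSpace.measurableSet_top, e]

/-- **Theorem.** In a random spanning tree model on `n` vertices with trees of maximum degree at
most `d` in which every pair of vertices is an edge with probability at most `θ`, from every start
vertex the exploration time exceeds `70000 (√d n + θ n²)` with probability at most `exp (-√n)`. -/
theorem result (n d : ℕ) (hd : 2 ≤ d) (hdn : d ≤ n - 1) (M : RSTModel n) (hM : M.MaxDegLE d)
    (θ : ℝ) (hθ : ∀ u v, M.edgeProb u v ≤ θ) {Ω : Type*} [MeasurableSpace Ω] (P : Measure Ω)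
    [IsProbabilityMeasure P] (G : ℕ → Ω → SimpleGraph (Fin n)) (hG : IsSample M P G)
    (s : Fin n) :
    P {ω | ((⌊70000 * (√d * n + θ * (n : ℝ) ^ 2)⌋₊ : ℕ) : ℕ∞) < texp (fun i => G i ω) s} ≤
      ENNReal.ofReal (Real.exp (-√n)) := by
  have hn : 3 ≤ n := by omega
  have hn' : (3 : ℝ) ≤ n := by exact_mod_cast hn
  have hd' : (2 : ℝ) ≤ d := by exact_mod_cast hd
  have hθ0 : 0 ≤ θ := ENNReal.toReal_nonneg.trans (hθ s s)
  have hle : √(d : ℝ) * n + min θ 1 * (n : ℝ) ^ 2 ≤ √(d : ℝ) * n + θ * (n : ℝ) ^ 2 := by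
    have : min θ 1 * (n : ℝ) ^ 2 ≤ θ * (n : ℝ) ^ 2 :=
      mul_le_mul_of_nonneg_right (min_le_left _ _) (by positivity)
    linarith
  have hsd : 1 ≤ √(d : ℝ) := by
    rw [Real.one_le_sqrt]
    linarith
  have hNr : 60000 * (√(d : ℝ) * n + min θ 1 * (n : ℝ) ^ 2) ≤
      (⌊70000 * (√(d : ℝ) * n + θ * (n : ℝ) ^ 2)⌋₊ : ℝ) := by
    have h1 : 70000 * (√(d : ℝ) * n + θ * (n : ℝ) ^ 2) <
        (⌊70000 * (√(d : ℝ) * n + θ * (n : ℝ) ^ 2)⌋₊ : ℝ) + 1 := Nat.lt_floor_add_one _
    have h2 : 3 ≤ √(d : ℝ) * n := by nlinarith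
    have h3 : 0 ≤ θ * (n : ℝ) ^ 2 := by positivity
    linarith
  have hedge : ∀ u v, (M.law.toOuterMeasure {T | T.Adj u v}).toReal ≤ min θ 1 := by
    intro u v
    rw [← PMF.toMeasure_apply_eq_toOuterMeasure_apply (hs := MeasurableSpace.measurableSet_top)]
    refine le_min (hθ u v) ?_
    refine ENNReal.toReal_le_of_le_ofReal zero_le_one ?_
    rw [ENNReal.ofReal_one]
    exact prob_le_one
  have key := RST42.final_bound M.trees M.law (fun T hT => by
      by_contra hc
      exact hT (M.supported ((M.law.mem_support_iff T).2 hc)))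
    (fun T hT => (M.isTree T hT).connected) (d := d) (by omega)
    (by rw [Fintype.card_fin]; omega) hM (le_min hθ0 zero_le_one) (min_le_right _ _) hedge G
    (cylinder hG) s (by rw [Fintype.card_fin]; exact hNr)
  rw [Fintype.card_fin] at key
  refine (measure_mono fun ω hω => ?_).trans key
  intro hv
  obtain ⟨v, hv⟩ := hv
  have hω' : ((⌊70000 * (√(d : ℝ) * n + θ * (n : ℝ) ^ 2)⌋₊ : ℕ) : ℕ∞) <
    texp (fun i => G i ω) s := hω
  refine absurd ?_ (not_le.2 hω')
  unfold texp
  exact iInf₂_le _ ⟨v, hv⟩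

end Pool.Agent.Results.MP_062a2b_pr.SpreadEdges
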